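import Pool.Agent.Lib.helper29.Pick1

open Matrix
open scoped ComplexOrder

namespace Pool.Agent.Results.MP_cbd977_an.Counter

open Pool.Agent.Lib.H29.Pick

/-- Complete pseudo-Pick pair: positivity of `[(I - W_i W_j^*) k(z_i,z_j)]` (n points, `n × n`
matrices) gives a contractive multiplier of `H_l ⊗ ℂ^n` interpolating the data. -/
def IsPseudoPick {X : Type*} (k l : X → X → ℂ) : Prop :=
  ∀ n : ℕ, 1 ≤ n → ∀ (z : Fin n → X) (W : Fin n → Matrix (Fin n) (Fin n) ℂ),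
    (pick k k z W).PosSemidef → ∃ Φ : X → Matrix (Fin n) (Fin n) ℂ,
      IsContr l l Φ ∧ ∀ i, Φ (z i) = W i

def k (a b : Fin 3) : ℂ := if a = b then 3 else -1
def l (a b : Fin 3) : ℂ := if a = b then 4 else 1

lemma psd (L : Fin 3 → Fin 3 → ℝ) (d : Fin 3 → ℝ) (hd : ∀ i, 0 ≤ d i)
    (M : Matrix (Fin 3) (Fin 3) ℂ) (h : ∀ i j, M i j = ((L i 0 * d 0 * L j 0 + L i 1 * d 1 * L j 1
      + L i 2 * d 2 * L j 2 : ℝ) : ℂ)) : M.PosSemidef := by
  have := (PosSemidef.diagonal (d := fun i => (d i : ℂ)) fun i => by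
    simpa using hd i).mul_mul_conjTranspose_same (Matrix.of fun i j => (L i j : ℂ))
  convert this using 1
  ext i j
  rw [h, mul_apply]
  simp [mul_diagonal, Fin.sum_univ_three]

lemma hk : IsKernel k :=
  psd ![![1, 0, 0], ![-1 / 3, 1, 0], ![-1 / 3, -1 / 2, 1]] ![3, 8 / 3, 2]
    (fun i => by fin_cases i <;> norm_num) _ fun i j => by
      fin_cases i <;> fin_cases j <;> simp [k] <;> norm_num

lemma hl : IsKernel l :=
  psd ![![1, 0, 0], ![1 / 4, 1, 0], ![1 / 4, 1 / 5, 1]] ![4, 15 / 4, 18 / 5]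
    (fun i => by fin_cases i <;> norm_num) _ fun i j => by
      fin_cases i <;> fin_cases j <;> simp [l] <;> norm_num

noncomputable def c0 : Matrix (Fin 3) (Fin 3) ℂ :=
  !![4 / 3, -1, 1 / 3; -1, 4 / 3, -1; 1 / 3, -1, 4 / 3]

lemma hc0 : c0.PosSemidef :=
  psd ![![1, 0, 0], ![-3 / 4, 1, 0], ![1 / 4, -9 / 7, 1]] ![4 / 3, 7 / 12, 2 / 7]
    (fun i => by fin_cases i <;> norm_num) _ fun i j => by
      fin_cases i <;> fin_cases j <;> simp [c0] <;> norm_num

lemma kd (a : Fin 3) : k a a = 3 := by simp [k]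

lemma same {n N : ℕ} {z : Fin n → Fin 3} {W : Fin n → Matrix (Fin N) (Fin N) ℂ}
    (h : (pick k k z W).PosSemidef) {i j : Fin n} (hij : z j = z i) : W j = W i := by
  have hT : (T k k (fun p : Fin n × Fin N => z p.1) (Matrix.of fun p => (1 : Matrix _ _ ℂ) p.2)
      (Matrix.of fun p => W p.1 p.2)).PosSemidef := by
    convert h using 1
    ext p q
    have e1 : ((Matrix.of fun p : Fin n × Fin N => (1 : Matrix (Fin N) (Fin N) ℂ) p.2) *
        (Matrix.of fun p : Fin n × Fin N => (1 : Matrix (Fin N) (Fin N) ℂ) p.2)ᴴ) p q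
        = ((1 : Matrix (Fin N) (Fin N) ℂ) * (1 : Matrix (Fin N) (Fin N) ℂ)ᴴ) p.2 q.2 := rfl
    simp only [T, pick, of_apply, e1, conjTranspose_one, Matrix.mul_one]
    rfl
  funext r
  have := consist hk _ _ _ hT (i, r) (by rw [kd]; norm_num) (fun s => (j, s)) fun s => ⟨hij, rfl⟩
  refine Eq.trans ?_ this
  funext t
  simp [vecMul, dotProduct, one_apply]

lemma had {N : ℕ} {p q : Fin 3 → Fin 3 → ℂ} {Φ : Fin 3 → Matrix (Fin N) (Fin N) ℂ}
    (h : IsContr p p Φ) (c : Matrix (Fin 3) (Fin 3) ℂ) (hc : c.PosSemidef)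
    (e : ∀ a b, q a b = c a b * p a b) : IsContr q q Φ := by
  have h3 := (hc.submatrix (Prod.fst : Fin 3 × Fin N → Fin 3)).hadamard h
  have e' : pick q q id Φ = c.submatrix Prod.fst Prod.fst ⊙ pick p p id Φ := by
    ext ⟨a, r⟩ ⟨b, s⟩
    simp only [pick, of_apply, hadamard_apply, submatrix_apply, id, e]; ring
  unfold IsContr
  rw [e']; exact h3

lemma sch {N : ℕ} {Φ : Fin 3 → Matrix (Fin N) (Fin N) ℂ} (h : IsContr k k Φ) (z : Fin 3) :
    IsContr (schur k z) (schur k z) Φ := by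
  let x' : (Fin 3 × Fin N) ⊕ (Fin 3 × Fin N) → Fin 3 := Sum.elim Prod.fst fun _ => z
  let r : (Fin 3 × Fin N) ⊕ (Fin 3 × Fin N) → Fin N := Sum.elim Prod.snd Prod.snd
  have h1 := PosSemidef.submatrix h (fun a => (x' a, r a))
  have h2 := (posSemidef_self_mul_conjTranspose
    (Matrix.of fun (a : (Fin 3 × Fin N) ⊕ (Fin 3 × Fin N)) t => k (x' a) z * Φ (x' a) (r a) t)).smul
    (a := (3 : ℂ)⁻¹) (inv_nonneg.2 (by norm_num))
  have h4 := (h1.add h2).mul_mul_conjTranspose_same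
    (fromCols (1 : Matrix (Fin 3 × Fin N) (Fin 3 × Fin N) ℂ) (diagonal fun a => -(k a.1 z / 3)))
  have hH : ∀ y y', (starRingEnd ℂ) (k y y') = k y' y := fun y y' => hk.1.apply y' y
  have e : ∀ a b, ((pick k k id Φ).submatrix (fun a => (x' a, r a)) (fun a => (x' a, r a))
      + (3 : ℂ)⁻¹ • ((Matrix.of fun (a : (Fin 3 × Fin N) ⊕ (Fin 3 × Fin N)) t => k (x' a) z * Φ (x' a) (r a) t) *
      (Matrix.of fun (a : (Fin 3 × Fin N) ⊕ (Fin 3 × Fin N)) t => k (x' a) z * Φ (x' a) (r a) t)ᴴ)) a b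
      = k (x' a) (x' b) * (1 : Matrix (Fin N) (Fin N) ℂ) (r a) (r b)
        - schur k z (x' a) (x' b) * (Φ (x' a) * (Φ (x' b))ᴴ) (r a) (r b) := by
    intro a b
    have : ((Matrix.of fun (a : (Fin 3 × Fin N) ⊕ (Fin 3 × Fin N)) t => k (x' a) z * Φ (x' a) (r a) t) *
        (Matrix.of fun (a : (Fin 3 × Fin N) ⊕ (Fin 3 × Fin N)) t => k (x' a) z * Φ (x' a) (r a) t)ᴴ) a b
        = k (x' a) z * k z (x' b) * (Φ (x' a) * (Φ (x' b))ᴴ) (r a) (r b) := by
      simp only [mul_apply, of_apply, conjTranspose_apply, star_mul', Finset.mul_sum,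
        RCLike.star_def, hH]
      exact Finset.sum_congr rfl fun t _ => by ring
    rw [Matrix.add_apply, Matrix.smul_apply, this]
    simp only [pick, submatrix_apply, of_apply, id, schur, kd, smul_eq_mul]
    rw [if_neg (by norm_num)]; ring
  unfold IsContr
  convert h4 using 1
  ext a b
  generalize (pick k k id Φ).submatrix (fun a => (x' a, r a)) (fun a => (x' a, r a))
      + (3 : ℂ)⁻¹ • ((Matrix.of fun (a : (Fin 3 × Fin N) ⊕ (Fin 3 × Fin N)) t => k (x' a) z * Φ (x' a) (r a) t) *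
      (Matrix.of fun (a : (Fin 3 × Fin N) ⊕ (Fin 3 × Fin N)) t => k (x' a) z * Φ (x' a) (r a) t)ᴴ) = M at e
  have e1 : (fromCols (1 : Matrix (Fin 3 × Fin N) (Fin 3 × Fin N) ℂ) (diagonal fun a => -(k a.1 z / 3)) * M *
      (fromCols (1 : Matrix (Fin 3 × Fin N) (Fin 3 × Fin N) ℂ) (diagonal fun a => -(k a.1 z / 3)))ᴴ) a b
      = (M (.inl a) (.inl b) - k a.1 z / 3 * M (.inr a) (.inl b))
        - (M (.inl a) (.inr b) - k a.1 z / 3 * M (.inr a) (.inr b)) * (k z b.1 / 3) := by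
    have h3 : (starRingEnd ℂ) 3 = 3 := Complex.conj_ofNat 3
    simp [mul_apply, one_apply, diagonal_apply, apply_ite (starRingEnd ℂ), hH, h3]
    ring
  rw [e1, e, e, e, e]
  have r1 : ∀ a, r (.inl a) = a.2 := fun _ => rfl
  have r2 : ∀ a, r (.inr a) = a.2 := fun _ => rfl
  rw [r1 a, r1 b, r2 a, r2 b]
  simp only [x', Sum.elim_inl, Sum.elim_inr, pick, of_apply, id, schur, kd]
  simp only [if_neg (show (3 : ℂ) ≠ 0 by norm_num)]
  ring

lemma full {N : ℕ} {Φ : Fin 3 → Matrix (Fin N) (Fin N) ℂ} (h : IsContr k k Φ) :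
    IsContr l l Φ := by
  have g : ∀ (z : Fin 3) (s : Fin 3 → ℂ), IsContr
      (fun a b => ((3 / 4 : ℂ) • vecMulVec s (star s)) a b * schur k z a b)
      (fun a b => ((3 / 4 : ℂ) • vecMulVec s (star s)) a b * schur k z a b) Φ := fun z s =>
    had (sch h z) _ ((posSemidef_vecMulVec_self_star s).smul
      (div_nonneg (by norm_num) (by norm_num))) fun _ _ => rfl
  have h1 := PosSemidef.add (PosSemidef.add (g 0 ![0, 1, -1]) (g 1 ![1, 0, -1])) (g 2 ![1, -1, 0])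
  unfold IsContr
  convert h1 using 1
  ext ⟨a, r⟩ ⟨b, s⟩
  simp only [pick, of_apply, Matrix.add_apply, id]
  generalize (1 : Matrix (Fin N) (Fin N) ℂ) r s = u
  generalize (Φ a * (Φ b)ᴴ) r s = v
  fin_cases a <;> fin_cases b <;> simp [l, k, schur] <;> ring

lemma cases3 : ∀ τ : Fin 3 → Fin 3, Function.Surjective τ ∨ (∀ a b, τ a = τ b) ∨
    ∃ e : Fin 3 → Fin 3, (∀ a b, e a = e b ↔ a = b) ∧
      ∀ a b, τ a = τ b ↔ (e a = 1 ↔ e b = 1) := by
  decide +kernel

lemma pp : IsPseudoPick k l := by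
  classical
  intro n hn z W h
  have hs : ∀ a : Fin 3, ∃ i : Fin n, (∃ j, z j = a) → z i = a := by
    intro a
    by_cases ha : ∃ j, z j = a
    · obtain ⟨j, hj⟩ := ha; exact ⟨j, fun _ => hj⟩
    · exact ⟨⟨0, hn⟩, fun h => (ha h).elim⟩
  choose σ hσ using hs
  refine ⟨fun a => W (σ a), ?_, fun i => same h (hσ _ ⟨i, rfl⟩)⟩
  have h1 : IsContr (fun a b => k (z (σ a)) (z (σ b))) (fun a b => k (z (σ a)) (z (σ b)))
      (fun a => W (σ a)) := h.submatrix fun p : Fin 3 × Fin n => (σ p.1, p.2)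
  rcases cases3 (fun a => z (σ a)) with h2 | h2 | ⟨e, he, h2⟩
  · have : ∀ a, z (σ a) = a := fun a => by
      obtain ⟨b, hb⟩ := h2 a
      exact hσ a ⟨_, hb⟩
    simp only [this] at h1
    exact full h1
  · refine had h1 ((3 : ℂ)⁻¹ • Matrix.of l) (PosSemidef.smul hl (inv_nonneg.2 (by norm_num)))
      fun a b => ?_
    rw [h2 a b, kd]; simp; ring
  · refine had h1 (c0.submatrix e e) (hc0.submatrix e) fun a b => ?_
    simp only [k, l, h2, ← he a b, submatrix_apply]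
    generalize e a = u
    generalize e b = v
    fin_cases u <;> fin_cases v <;> simp [c0]

theorem result : ∃ k l : Fin 3 → Fin 3 → ℂ, IsKernel k ∧ IsKernel l ∧ (∀ x y, k x y ≠ 0) ∧
    IsPseudoPick k l ∧ ¬ IsKernel fun x y => l x y / k x y := by
  refine ⟨k, l, hk, hl, fun x y => ?_, pp, fun h => ?_⟩
  · unfold k; split_ifs <;> norm_num
  · have := (Complex.le_def.1 (PosSemidef.dotProduct_mulVec_nonneg h fun _ => 1)).1
    simp [dotProduct, mulVec, Fin.sum_univ_three, k, l] at this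
    norm_num at this

end Pool.Agent.Results.MP_cbd977_an.Counter
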